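import Pool.Agent.W662.SK.StmtsB

set_option autoImplicit false

open scoped InnerProductSpace ENNReal

namespace Pool.Agent.W110.SK

open Pool.Agent.W662.SK

theorem qb : S_Qb := by
  intro Γ K _ _ _ _ π Φ Ψ hD x0 n m x z g h i j
  have key : ∀ r s, ⟪Φ (x s) x0 1 (z j s), Ψ ⟨cl (Lam K h), Lam_mem h⟩
      (Rho K g (Φ (x r) x0 1 (z i r)))⟫_ℂ =
      ⟪x s, π h (x r)⟫_ℂ * ⟪z j s, Φ x0 x0 h (Rho K g (z i r))⟫_ℂ := by
    intro r s
    have h1 : Rho K g (Φ (x r) x0 1 (z i r)) = Φ (x r) x0 1 (Rho K g (z i r)) := by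
      have := congrArg (fun T : L2 Γ K →L[ℂ] L2 Γ K => T (z i r)) (hD.hR (x r) x0 1 g)
      exact this.symm
    have h2 : Ψ ⟨cl (Lam K h), Lam_mem h⟩ (Φ (x r) x0 1 (Rho K g (z i r))) =
        Φ (π h (x r)) x0 (h * 1) (Rho K g (z i r)) := by
      have := congrArg (fun T : L2 Γ K →L[ℂ] L2 Γ K => T (Rho K g (z i r)))
        (hD.hΨΦ h (x r) x0 1)
      exact this
    have h3 : Φ (x s) x0 1 = ContinuousLinearMap.adjoint (Φ x0 (x s) 1) := by
      have := hD.hadj x0 (x s) 1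
      rw [inv_one] at this
      exact this.symm
    have h4 : Φ x0 (x s) 1 (Φ (π h (x r)) x0 (h * 1) (Rho K g (z i r))) =
        ⟪x s, π h (x r)⟫_ℂ • Φ x0 x0 h (Rho K g (z i r)) := by
      have := congrArg (fun T : L2 Γ K →L[ℂ] L2 Γ K => T (Rho K g (z i r)))
        (hD.hmul x0 (x s) 1 (π h (x r)) x0 (h * 1))
      rw [one_mul, mul_one] at this
      rw [mul_one]
      exact this
    rw [h1, h2, h3, ContinuousLinearMap.adjoint_inner_left, h4, inner_smul_right]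
  simp only [map_sum, sum_inner, inner_sum, key]

end Pool.Agent.W110.SK
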